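import Mathlib
import Pool.Agent.T9h29.QA.Four

set_option autoImplicit false

/-!
# The primes `p ≡ 5 (mod 8)` with an irregular quartic index: a saving of a power of the logarithm

The file `QuarticIndices` of this problem shows that for `p ≡ 5 (mod 8)` both `B_{(p+3)/4}` and
`B_{(3p+1)/4}` are regular outside `o(x / log x)` primes `p ≤ x`.  Here the exceptional set is shown to
have at most `x / (log x)^{1+κ}` elements up to `x`, for every `κ < 1/5`; by partial summation the sum
of the reciprocals of the exceptional primes converges.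

If `p` is exceptional then `|∑_{n odd} χ(n)/n|²` lies in the discrete set `{(π²/4) m}`.  New here is a
quantitative form of the anti-concentration argument (`Pool/Agent/T9h29/QA/`):

* the pattern of the values `χ(q)` is controlled uniformly for all primes `q ≤ y = c log x` (the product
  of these primes is a small power of `x`, so the Selberg sieve in `ℤ[i]` still applies);
* the error in replacing the sum by the Euler product over `q ≤ y` is at most `1/w` outside a set of
  density `w² y^{-1+ε}` (mean square), the Euler product being at most `y^ε` (Chebyshev);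
* the factors at the primes `q ≤ w` have relative gaps `c/q ≥ c/w`, so by Sperner's theorem the product
  is in a given interval of relative length `c/w` with probability at most `w^{-1/2+ε}`.

The choice `w = (log x)^{2/5}` gives the theorem.
-/

namespace Pool.Agent.Results.MP_a3a416_nt.QuarticSparse

open Filter

/-- For every `κ < 1/5` and all large `x`, at most `x / (log x)^{1+κ}` primes `p ≤ x` with
`p ≡ 5 (mod 8)` divide the numerator of `B_{(p+3)/4}` or that of `B_{(3p+1)/4}`. -/
theorem result (κ : ℝ) (hκ : κ < 1 / 5) :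
    ∀ᶠ x : ℕ in atTop,
      (Nat.card {p : ℕ | p ≤ x ∧ p.Prime ∧ p % 8 = 5 ∧
        ((p : ℤ) ∣ (bernoulli ((p + 3) / 4)).num ∨ (p : ℤ) ∣ (bernoulli ((3 * p + 1) / 4)).num)} : ℝ)
        ≤ x / (Real.log x) ^ (1 + κ) := by
  filter_upwards [Pool.Agent.T9h29.QA.four_countQ (max κ 0) (le_max_right _ _)
    (max_lt hκ (by norm_num)), Pool.Agent.R361.AC.tendsto_log_nat.eventually_ge_atTop 1] with x hx h1
  have h : {p : ℕ | p ≤ x ∧ p.Prime ∧ p % 8 = 5 ∧
        ((p : ℤ) ∣ (bernoulli ((p + 3) / 4)).num ∨ (p : ℤ) ∣ (bernoulli ((3 * p + 1) / 4)).num)} =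
      {p : ℕ | p ≤ x ∧ p ∈ Pool.Agent.R361.QF.P4 ∧ Pool.Agent.R361.QF.B4 p} := by
    ext p
    constructor
    · rintro ⟨h1, h2, h3, h4⟩
      exact ⟨h1, ⟨h2, h3⟩, h4⟩
    · rintro ⟨h1, ⟨h2, h3⟩, h4⟩
      exact ⟨h1, h2, h3, h4⟩
  rw [h]
  refine hx.trans ?_
  apply div_le_div_of_nonneg_left (Nat.cast_nonneg _) (by positivity)
  apply Real.rpow_le_rpow_of_exponent_le h1
  linarith [le_max_left κ 0]

end Pool.Agent.Results.MP_a3a416_nt.QuarticSparse
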